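import Pool.Agent.Y133.Chow.Frob5

/-!
# MP_81632f_ag: a criterion for the conjectures of Beilinson, Tate and for semisimplicity

Let `X` be a smooth projective variety over a finite field. Let `a(n)` be the dimension of the space
of cycles on `X^n` modulo numerical equivalence, `b(n)` the dimension of the Chow ring of `X^n` with
rational coefficients (possibly infinite) and `r(n)` the sum over `i` of the multiplicities of the
eigenvalue `q^i` of Frobenius on `H^{2i}(X^n)`. Then `b(n) / a(n)` converges to some `N` and
`r(n) / a(n)` to some `M`, with `N` and `M` in `{1, 2, 3, …, ∞}`, and the following are equivalent: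

* for all `i` and `n` the map `CH^i(X^n) ⊗ ℚ_l → H^{2i}(X^n)(i)^G` is bijective and the eigenvalue `1`
  of Frobenius on `H^{2i}(X^n)(i)` is semisimple;
* `N` is finite and `M = 1`.

So if for infinitely many `n` the multiplicity `r(n)` is at most `(2 - ε) a(n)`, and for infinitely
many `n` the dimension `b(n)` is at most `C a(n)`, then both conjectures hold for all powers of `X`.
If `M` is finite then Frobenius is semisimple on the cohomology of all powers of `X`. If `M = 1` (the
Tate conjecture for the powers of `X`, and homological and numerical equivalence agree) then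
`N = 1` or `N = ∞`. If `N` is finite, the external products `z × ⋯ × z` of numerically trivial
elements with `N` factors are zero.
-/

open CategoryTheory AlgebraicGeometry Filter Topology

universe u v w

namespace Pool.Agent.Results.MP_81632f_ag.BeilinsonCriterion

open Pool.Agent.H914 Pool.Agent.H914.VarClass Pool.Agent.H914.VarClass.Obj
  Pool.Agent.H914.WeilCohomology Pool.Agent.W492.BB Pool.Agent.TH133 Pool.Agent.Y133.Chow
  Pool.Agent.Y129

variable {k : Type u} [Field k] {𝒱 : VarClass k} {ops : CycleOps 𝒱}

theorem result {W : WeilCohomology.{u, v} ops} {C : TheoryData.{u, w, 0} 𝒱 ℚ} [IsChowProj C]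
    (c : ClassMap W C) {φ : ∀ X : 𝒱.Obj, X ⟶ X} {q : ℕ} (h : IsFrobenius φ q W C) (X : 𝒱.Obj)
    [Nontrivial (W.H X)] :
    ∃ N M : ℕ∞, 1 ≤ N ∧ 1 ≤ M ∧
      RatioTendsTo (fun n => chowDim C (pw X n)) (fun n => numDim c (pw X n)) N ∧
      RatioTendsTo (fun n => poleSum φ q W (pw X n)) (fun n => numDim c (pw X n)) M ∧
      ((∀ n j, Beilinson φ q c (pw X n) j) ↔ N ≠ ⊤ ∧ M = 1) ∧
      (M ≠ ⊤ → ∀ n, IsSemisimple (W.map (φ (pw X n)))) ∧
      (M = 1 → N = 1 ∨ N = ⊤) ∧ SmashNilpotent c X N :=
  criterion c h X

end Pool.Agent.Results.MP_81632f_ag.BeilinsonCriterion
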