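import Pool.Agent.TH943.SP.Main

/-!
Semisimplicity of the Frobenius on the cohomology of smooth affine varieties of every dimension: the
étale cyclic coverings of degree `p ^ s` of the complement of the hypersurface
`D(x_0) f(x_(n+1)) ∏ (x_i - h_i(x_(i-1))) = 0` in affine space.
-/

set_option autoImplicit false
set_option maxHeartbeats 1000000

open Polynomial

namespace Pool.Agent.Results.MP_81632f_ag.OpenCoverings

section defs

variable {κ : Type} [Field κ]

/-- The composition `f(h_n(... h_1(x)))`; here `h_1` is `h 0`. -/
noncomputable def composite : (n : ℕ) → (Fin n → κ[X]) → κ[X] → κ[X]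
  | 0, _, f => f
  | n + 1, h, f => (composite n (fun i => h i.succ) f).comp (h 0)

/-- The data of a covering: a number `n`, polynomials `h_1, ..., h_(n+1)` (`h_1` is `h 0`), `f` and `D`,
and exponents. -/
structure Datum (κ : Type) [Field κ] : Type where
  n : ℕ
  h : Fin (n + 1) → κ[X]
  f : κ[X]
  D : κ[X]
  b : Fin (n + 1) → ℕ
  c : ℕ
  a : ℕ

/-- The degree of the whole composition `f(h_(n+1)(... h_1(x)))`. -/
noncomputable def Datum.M (T : Datum κ) : ℕ := (composite (T.n + 1) T.h T.f).natDegree

/-- The degree of the composition without `h_1`. -/
noncomputable def Datum.K (T : Datum κ) : ℕ := (composite T.n (fun i => T.h i.succ) T.f).natDegree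

/-- The dimension of the covering. -/
def Datum.dim (T : Datum κ) : ℕ := T.n + 2

/-- The value of the function `G = D(x_0) ^ a f(x_(n+1)) ^ c ∏ (x_i - h_i(x_(i-1))) ^ b_i`, product
over `i = 1, ..., n + 1`, at the point `x = (x_0, ..., x_(n+1))` over `L`. -/
noncomputable def value (L : Type) [Field L] [Algebra κ L] (T : Datum κ) (x : Fin (T.n + 2) → L) : L :=
  (aeval (x 0) T.D) ^ T.a * ((aeval (x (Fin.last (T.n + 1))) T.f) ^ T.c *
    ∏ i : Fin (T.n + 1), (x i.succ - aeval (x i.castSucc) (T.h i)) ^ T.b i)

/-- The number of points over `L` of the open set `U` of affine space where `G` is not zero. -/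
noncomputable def openCount (L : Type) [Field L] [Algebra κ L] (T : Datum κ) : ℕ :=
  Set.ncard {x : Fin (T.n + 2) → L | value L T x ≠ 0}

/-- The number of points over `L` of `U` where the power of `G` with exponent `(|L| - 1) / m` is
`z ^ i`. -/
noncomputable def fixCount (L : Type) [Field L] [Fintype L] [Algebra κ L] (T : Datum κ) (m : ℕ)
    (z : κ) (i : ℕ) : ℕ :=
  Set.ncard {x : Fin (T.n + 2) → L | value L T x ≠ 0 ∧
    (value L T x) ^ ((Fintype.card L - 1) / m) = algebraMap κ L z ^ i}

/-- The composition of all the polynomials is irreducible of degree at least two and prime to `p`;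
`D` is a constant or irreducible of degree prime to `p` and to the degree of the composition; the
exponents are positive. -/
structure IsAdmissible (p : ℕ) (T : Datum κ) : Prop where
  irreducible : Irreducible (composite (T.n + 1) T.h T.f)
  degree : ¬ p ∣ T.M
  two_le : 2 ≤ T.M
  factor : (∃ u : κ, u ≠ 0 ∧ T.D = C u) ∨
    (Irreducible T.D ∧ ¬ p ∣ T.D.natDegree ∧ Nat.Coprime T.D.natDegree T.M)
  exponents : ∀ i, T.b i ≠ 0
  exponent : T.c ≠ 0
  exponent' : T.a ≠ 0

/-- The space `W` is the sum of the `H^N_c(U, L_χ)`, `N = n + 2` the dimension, over the nontrivial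
characters `χ` of the group of the covering `v ^ (p ^ s) = G`, that is the part of the cohomology with
compact supports of the smooth affine variety `𝒴 : v ^ (p ^ s) = G ≠ 0` on which the group acts by
nontrivial characters, when this part lives in the middle degree only; `Φ` is the Frobenius and `g` the
generator of the group of order `p ^ s`. The trace formula: the composition of the Frobenius over `L`
and `g ^ i` has `p ^ s` fixed points on `𝒴` over each point counted by `fixCount`, and the part of the
trace on which the group acts trivially is the number of points of `U`. The dimension of the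
eigenspaces of `g` is the Euler characteristic of `U`, up to the sign. -/
structure IsCohomology (p s : ℕ) (z : κ) (T : Datum κ) {E W : Type} [Field E] [AddCommGroup W]
    [Module E W] (Φ g : Module.End E W) : Prop where
  commute : Commute Φ g
  order : g ^ p ^ s = 1
  invariants : ∀ w, g w = w → w = 0
  lefschetz : ∀ (L : Type) [Field L] [Fintype L] [Algebra κ L] (i : ℕ),
    (openCount L T : E) + (-1) ^ T.dim * LinearMap.trace E W (Φ ^ Module.finrank κ L * g ^ i) =
      (p : E) ^ s * (fixCount L T (p ^ s) z i : E)
  dimension : ∀ ω : E, ω ≠ 1 → ω ^ p ^ s = 1 →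
    Module.finrank E (g.eigenspace ω) + T.K = T.M + T.K * T.D.natDegree

theorem composite_eq (n : ℕ) : ∀ (h : Fin n → κ[X]) (f : κ[X]),
    composite n h f = Pool.Agent.TH943.IP.cmp n h f := by
  induction n with
  | zero => intro h f; rfl
  | succ n ih =>
    intro h f
    show (composite n (fun i => h i.succ) f).comp (h 0) = _
    rw [ih]
    rfl

end defs

/-- **Semisimplicity of the Frobenius for smooth affine varieties of every dimension.**

Let `p` be a prime and `κ` a finite field which contains a primitive root of unity `z` of order
`p ^ s`, `s ≥ 1`, and let `f`, `h_1, ..., h_(n+1)`, `D` be polynomials over `κ`, `n ≥ 0`, such that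
`f(h_(n+1)(... h_1(x)))` is irreducible of degree `M ≥ 2` prime to `p`, and `D` is a nonzero constant,
or irreducible of degree prime to `p` and to `M`. Let `U` be the complement in the affine space of
dimension `N = n + 2` of the hypersurface `D(x_0) f(x_(n+1)) ∏ (x_i - h_i(x_(i-1))) = 0`, and let
`𝒴` be the smooth affine variety `v ^ (p ^ s) = D(x_0) ^ a f(x_(n+1)) ^ c ∏ (x_i - h_i(x_(i-1))) ^ b_i`
over `U`, an étale covering with a cyclic group of order `p ^ s`.

For a prime `ℓ` different from the characteristic, `E` an algebraic closure of the field of `ℓ`-adic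
numbers, the cohomology with compact supports of `𝒴` is the sum of the cohomology of `U` and of the
`H^j_c(U, L_χ)`, `χ` the nontrivial characters of order dividing `p ^ s`; these are zero for `j < N`.
Assume that they are zero for `j > N` also. (This is so if the degrees of the `h_i` are not divisible
by the characteristic, `c` and the `b_i` are prime to `p`, and `D` is a constant; for nonconstant `D`
and `N = 2` it is so if `b_1`, `c`, `b_1 + c k`, `a d + b_1 m` and `a d + (b_1 + c k) m` are prime
to `p`, `d`, `k`, `m` the degrees of `D`, `f`, `h_1`, as then there are no coinvariants for the inertia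
at infinity when one integrates over `x_0` and then over `x_1`.) Then `IsCohomology` holds.

Theorem: the Frobenius is semisimple on this part of the cohomology. By Poincaré duality it is
semisimple on the part of the cohomology `H^N(𝒴, E)` on which the group of the covering acts by
nontrivial characters; in particular for `N = 2 i` the eigenvalue one of Frobenius on the
corresponding part of `H^(2i)(𝒴, E(i))` is semisimple. All other cohomology of `𝒴` is cohomology
of `U`. The dimension of the part is `(p ^ s - 1) (M - K + K deg D)`, `K = M / deg h_1`. -/
theorem result (p s : ℕ) (hp : p.Prime) (hs : 1 ≤ s) (κ : Type) [Field κ] [Fintype κ] (z : κ)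
    (hz : IsPrimitiveRoot z (p ^ s)) (T : Datum κ) (hT : IsAdmissible p T)
    (E : Type) [Field E] [CharZero E] [IsAlgClosed E] (W : Type) [AddCommGroup W] [Module E W]
    [FiniteDimensional E W] (Φ g : Module.End E W) (hW : IsCohomology p s z T Φ g) :
    Φ.IsSemisimple ∧ ∀ α : E, Φ.maxGenEigenspace α = Φ.eigenspace α := by
  have hss : Φ.IsSemisimple := by
    have hirr := hT.irreducible
    have hdeg := hT.degree
    have hdeg2 := hT.two_le
    have hfac := hT.factor
    have hdim := hW.dimension
    unfold Datum.M at hdeg hdeg2 hfac hdim
    unfold Datum.K at hdim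
    rw [composite_eq] at hirr hdeg hdeg2 hfac
    simp only [composite_eq] at hdim
    refine Pool.Agent.TH943.SP.open_main hp hs κ hz T.h T.f T.D (b := T.b) (c := T.c) (a := T.a)
      hT.exponents hT.exponent hT.exponent' hirr hdeg hdeg2 hfac Φ g hW.commute hW.order
      hW.invariants ?_ hdim
    intro L _ _ _ i
    have h1 := hW.lefschetz L i
    have h2 : (-1) ^ (T.n + 2) * LinearMap.trace E W (Φ ^ Module.finrank κ L * g ^ i) =
        (p : E) ^ s * (fixCount L T (p ^ s) z i : E) - (openCount L T : E) := by
      unfold Datum.dim at h1
      linear_combination h1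
    exact h2
  refine ⟨hss, fun α => ?_⟩
  exact hss.isFinitelySemisimple.maxGenEigenspace_eq_eigenspace α

end Pool.Agent.Results.MP_81632f_ag.OpenCoverings
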