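import Pool.Agent.Y137.GN.Main

/-!
# Cycle class maps and semisimplicity for open and singular varieties over finite fields dominated by
abelian varieties of dimension at most five and products of elliptic curves and abelian surfaces

Let `k` be a finite field. An abelian variety over `k` is modelled by `RedAV` (Honda, Tate): a finite
product of CM types `(E i, Φ i)` with Weil numbers `π i ∈ E i` that satisfy the formula of Shimura
and Taniyama; its cohomology of degree `n` consists of the alternating `n`-forms on the Tate module
`Ω ⊗ H_1`, on which the Frobenius endomorphism acts by `π`. The coefficients `Ω` are an algebraic
closure of `ℚ_ℓ`. The good abelian varieties `Y` (`IsGoodAVS`) are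

* **all abelian varieties of dimension at most five**;
* all products (up to isogeny over an algebraic closure) of a supersingular abelian variety and of
  powers of simple abelian varieties of dimension at most three, where any two of these of dimension
  three which are not supersingular and not isogenous have CM fields with different Galois closures,
  or Galois CM fields: in particular **all products of any number of elliptic curves and abelian
  surfaces**.

`Homology Ω V` are data of motivic homology `M X i j = H_i^M(X, ℚ(j)) = CH_j(X, i - 2 j) ⊗ ℚ` and of
`ℓ`-adic homology `E X i j = H_i(X, ℚ_ℓ(j))` (coefficients extended to `Ω`) of the separated schemes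
`X` of finite type over `k` (the elements of `V`), with the Frobenius and the regulator. The index `i`
below is the dimension of the cycles: for a smooth variety `X` of dimension `g` the group
`H_(2 i)(X, ℚ_ℓ(i))` is `H^(2 (g - i))(X, ℚ_ℓ(g - i))`, and `CH_i(X) = CH^(g - i)(X)`.

The class `Generated` contains the good abelian varieties (`IsGoodAbelianS`), the schemes whose motives
are direct summands of finite sums of twists of motives of members, and all of `Z`, `X`, `U = X ∖ Z` for
closed `Z` if it contains two of them. So it contains all products of any number of curves of genus at
most two and of open subsets of such curves, their symmetric powers, and the singular or open varieties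
that are stratified by such varieties. The class `Spread` contains moreover all `X` for which the
conclusion of (1) is known, and is closed under open subvarieties, images under proper morphisms, unions
of a closed and an open member, and motivic direct summands. So it contains for example all open
subvarieties of all varieties dominated by products of curves of genus at most two.

**Theorem.**
1. For all `X` of the class `Spread` and all `i` the cycle class map
   `CH_i(X) ⊗ ℚ_ℓ → H_{2 i}(X, ℚ_ℓ(i))^{G_k}` is surjective and the eigenvalue one of the Frobenius is
   semisimple.
2. For all `X` of the class `Generated` and all `i` it is bijective.
3. For an **arbitrary** closed subscheme `Z` of a member `X` of `Generated`, of dimension at most `d`, the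
   cycle class maps of the complement `U = X ∖ Z` are bijective for the cycles of dimension `i ≥ d` (for
   smooth `X`: in all codimensions at most the codimension of `Z`). Here `Z` has dimension at most `d`
   means (`HasDimLE`) that its homology vanishes in degrees above `2 d` and that the cycle class map is
   surjective in dimension `d`, with semisimple eigenvalue one (the homology of degree `2 d` is spanned by
   the classes of the irreducible components).

The inputs are theorems: on an abelian variety over `k`, the Tate classes over `k` in the system `AlgS`
are combinations of classes of cycles (`IsChowS`: Tate, Markman, Ramón Marí); homologically trivial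
correspondences are nilpotent (Kimura); the properties of motivic cohomology (`IsMotivic`, Quillen)
and of the homology theories. New is that all Tate classes on the good abelian varieties are in `AlgS`
(`Pool.Agent.Results.MP_ee618e_ag.SurfacesAndDimensionFive`); the starting file
`DominatedBySmallAbelian` has abelian varieties of dimension at most four, and excludes for example
products of two surfaces whose CM fields have the same Galois closure.
-/

set_option autoImplicit false

namespace Pool.Agent.Results.MP_81632f_ag.SurfacesAndDimensionFive

open Pool.Agent.W495.TA Pool.Agent.W495.FM Pool.Agent.Y137.GN

/-- Surjectivity and semisimplicity for the class `Spread`, bijectivity for the class `Generated` and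
for complements. -/
theorem result (p : ℕ) [Fact p.Prime] (ν : PadicAlgCl p ≃+* ℂ) (Ω : Type) [Field Ω]
    [IsAlgClosed Ω] [CharZero Ω] (V : Type) (T : Homology Ω V) (hT : IsHomology T)
    (hW : HasWeights T) :
    (∀ X : V, Spread T (fun X => Generated T (IsGoodAbelianS p ν T) X ∨ ∀ i, IsOnto T X i) X →
      ∀ i, IsOnto T X i) ∧
    (∀ X : V, Generated T (IsGoodAbelianS p ν T) X → ∀ i, IsIso T X i) ∧
    IsoAbove T (IsGoodAbelianS p ν T) :=
  ⟨fun _ hX i => onto_spread_goodS hT hW hX i, fun _ hX i => (tb_goodS hT hX).iso hT i,
    isoAbove_goodS hT hW⟩

end Pool.Agent.Results.MP_81632f_ag.SurfacesAndDimensionFive
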